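import Pool.Agent.U337.EM.Stm

/-!
# Project EM, package FX: the Fox module of a metabelian Lie algebra
-/

set_option autoImplicit false

open MvPolynomial

namespace Pool.Agent.U454.EM.FX

open Pool.Agent.U337.EM

theorem exists_comm {k B σ : Type} [CommRing k] [Ring B] [Algebra k B] (f : σ → B)
    (hf : ∀ i j, f i * f j = f j * f i) : ∃ ρ : MvPolynomial σ k →ₐ[k] B, ∀ i, ρ (X i) = f i := by
  have hc : ∀ a ∈ Set.range f, ∀ b ∈ Set.range f, a * b = b * a := by
    rintro _ ⟨i, rfl⟩ _ ⟨j, rfl⟩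
    exact hf i j
  let _cr : CommRing (Algebra.adjoin k (Set.range f)) :=
    { (Algebra.adjoin k (Set.range f)).toRing with
      mul_comm := (Algebra.isMulCommutative_adjoin k hc).is_comm.comm }
  refine ⟨(Algebra.adjoin k (Set.range f)).val.comp
    (MvPolynomial.aeval (fun i => (⟨f i, Algebra.subset_adjoin ⟨i, rfl⟩⟩ :
      Algebra.adjoin k (Set.range f)))), fun i => ?_⟩
  simp

theorem exists_act {F : Type} [Field F] {V : Type} [AddCommGroup V] [Module F V] {d : ℕ}
    (T : Fin d → Module.End F V) (hT : ∀ i j, T i * T j = T j * T i) :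
    ∃ ρ : MvPolynomial (Fin d) F →ₐ[F] Module.End F V, ∀ i, ρ (X i) = T i :=
  exists_comm T hT

section main

variable {F : Type} [Field F] {L : Type} [LieRing L] [LieAlgebra F L] {d : ℕ}

theorem lf_smul_eq (ab : L →ₗ[F] (Fin d → F)) {N : Type} [AddCommGroup N] [Module F N]
    [Module (Sy F d) N] [IsScalarTower F (Sy F d) N] (y : L) (m : N) :
    lf ab y • m = ∑ k, ab y k • ((X k : Sy F d) • m) := by
  unfold lf
  rw [Finset.sum_smul]
  refine Finset.sum_congr rfl fun k _ => ?_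
  rw [← smul_eq_C_mul, smul_assoc]

variable {A : Type} [AddCommGroup A] [Module F A] [Module (Sy F d) A] [IsScalarTower F (Sy F d) A]

/-- the data -/
structure Setup (ab : L →ₗ[F] (Fin d → F)) (w : Fin d → L) (i : A →ₗ[F] L) (pA : L →ₗ[F] A) :
    Prop where
  hw : ∀ k, ab (w k) = Pi.single k 1
  hi : Function.Injective i
  hai : ∀ a, ab (i a) = 0
  hp : ∀ x, i (pA x) = x - ∑ k, ab x k • w k
  hX : ∀ k a, i ((X k : Sy F d) • a) = ⁅i a, w k⁆
  hc : ∀ x y : L, ab ⁅x, y⁆ = 0
  hA : ∀ a b : A, ⁅i a, i b⁆ = 0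

variable {ab : L →ₗ[F] (Fin d → F)} {w : Fin d → L} {i : A →ₗ[F] L} {pA : L →ₗ[F] A}

omit [IsScalarTower F (Sy F d) A] in
theorem Setup.dec (h : Setup ab w i pA) (y : L) : y = i (pA y) + ∑ k, ab y k • w k := by
  rw [h.hp, sub_add_cancel]

theorem Setup.act (h : Setup ab w i pA) (a : A) (y : L) : i (lf ab y • a) = ⁅i a, y⁆ := by
  rw [lf_smul_eq, map_sum]
  conv_rhs => rw [h.dec y, lie_add, h.hA, zero_add, lie_sum]
  refine Finset.sum_congr rfl fun k _ => ?_
  rw [map_smul, h.hX, lie_smul]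

omit [IsScalarTower F (Sy F d) A] in
theorem Setup.ipA (h : Setup ab w i pA) (x y : L) : i (pA ⁅x, y⁆) = ⁅x, y⁆ := by
  rw [h.hp, h.hc]
  simp

omit [IsScalarTower F (Sy F d) A] in
theorem Setup.pAi (h : Setup ab w i pA) (a : A) : pA (i a) = a := by
  apply h.hi
  rw [h.hp, h.hai]
  simp

omit [IsScalarTower F (Sy F d) A] in
theorem Setup.pAw (h : Setup ab w i pA) (k : Fin d) : pA (w k) = 0 := by
  apply h.hi
  rw [h.hp, h.hw, map_zero]
  simp [Pi.single_apply]

omit [Module (Sy F d) A] [IsScalarTower F (Sy F d) A] in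
theorem Setup.skew (k l : Fin d) : pA ⁅w k, w l⁆ = - pA ⁅w l, w k⁆ := by
  rw [← map_neg, lie_skew]

omit [IsScalarTower F (Sy F d) A] in
theorem Setup.jacobi (h : Setup ab w i pA) (a b c : Fin d) :
    (X c : Sy F d) • pA ⁅w a, w b⁆ + (X a : Sy F d) • pA ⁅w b, w c⁆ +
      (X b : Sy F d) • pA ⁅w c, w a⁆ = 0 := by
  apply h.hi
  rw [map_add, map_add, h.hX, h.hX, h.hX, h.ipA, h.ipA, h.ipA, map_zero]
  have h1 := lie_jacobi (w a) (w b) (w c)
  rw [← lie_skew (w a) ⁅w b, w c⁆, ← lie_skew (w b) ⁅w c, w a⁆, ← lie_skew (w c) ⁅w a, w b⁆] at h1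
  have h2 : -⁅⁅w b, w c⁆, w a⁆ + -⁅⁅w c, w a⁆, w b⁆ + -⁅⁅w a, w b⁆, w c⁆ =
    -(⁅⁅w a, w b⁆, w c⁆ + ⁅⁅w b, w c⁆, w a⁆ + ⁅⁅w c, w a⁆, w b⁆) := by abel
  rw [h2, neg_eq_zero] at h1
  exact h1

theorem Setup.lie_dec (h : Setup ab w i pA) (x y : L) :
    pA ⁅x, y⁆ = lf ab y • pA x - lf ab x • pA y +
      ∑ k, ∑ l, (ab x k * ab y l) • pA ⁅w k, w l⁆ := by
  apply h.hi
  rw [map_add, map_sub, h.act, h.act, h.ipA]
  simp only [map_sum, map_smul, h.ipA]
  set sx := ∑ k, ab x k • w k with hsx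
  set sy := ∑ k, ab y k • w k with hsy
  have h1 : ⁅sx, sy⁆ = ∑ k, ∑ l, (ab x k * ab y l) • ⁅w k, w l⁆ := by
    rw [hsx, hsy, sum_lie]
    refine Finset.sum_congr rfl fun k _ => ?_
    rw [lie_sum]
    refine Finset.sum_congr rfl fun l _ => ?_
    rw [smul_lie, lie_smul, smul_smul]
  rw [← h1]
  have hx := h.dec x
  have hy := h.dec y
  rw [← hsx] at hx
  rw [← hsy] at hy
  have h2 : ⁅x, y⁆ = ⁅i (pA x), y⁆ + ⁅sx, y⁆ := by
    conv_lhs => rw [hx, add_lie]
  have h3 : ⁅sx, y⁆ = ⁅sx, i (pA y)⁆ + ⁅sx, sy⁆ := by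
    conv_lhs => rw [hy, lie_add]
  have h4 : ⁅i (pA y), x⁆ = ⁅i (pA y), sx⁆ := by
    conv_lhs => rw [hx, lie_add, h.hA, zero_add]
  rw [h2, h3, h4, ← lie_skew sx (i (pA y))]
  abel

theorem mk_fox (h : Setup ab w i pA) {M : Type} [AddCommGroup M] [Module F M] [Module (Sy F d) M]
    [IsScalarTower F (Sy F d) M] (pr : M →ₗ[Sy F d] Sy F d) (inc : A →ₗ[Sy F d] M) (e : Fin d → M)
    (p1 : ∀ i, pr (e i) = X i) (p2 : ∀ a, pr (inc a) = 0) (p3 : Function.Injective inc)
    (p4 : ∀ m, pr m = 0 → ∃ a, inc a = m)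
    (p5 : ∀ k l, (X l : Sy F d) • e k - (X k : Sy F d) • e l = inc (pA ⁅w k, w l⁆))
    (p6 : ∀ m, ∃ (a : A) (s : Fin d → Sy F d), m = inc a + ∑ i, s i • e i)
    (p7 : ∀ (B N : Type) [CommRing B] [Algebra F B] [AddCommGroup N] [Module F N] [Module B N]
      [IsScalarTower F B N] (κ : Fin d → B) (α : A →ₗ[F] N) (v : Fin d → N),
      (∀ (s : Sy F d) (a : A), α (s • a) = aeval κ s • α a) →
      (∀ i j, κ j • v i - κ i • v j = α (pA ⁅w i, w j⁆)) →
      ∃ β : M →ₗ[F] N, (∀ (s : Sy F d) (m : M), β (s • m) = aeval κ s • β m) ∧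
        (∀ a, β (inc a) = α a) ∧ ∀ i, β (e i) = v i) : Nonempty (Fox ab M) := by
  classical
  let io : L →ₗ[F] M := (inc.restrictScalars F).comp pA +
    ∑ k, ((LinearMap.proj k).comp ab).smulRight (e k)
  have hio : ∀ x, io x = inc (pA x) + ∑ k, ab x k • e k := by
    intro x
    simp [io]
  have hioi : ∀ a, io (i a) = inc a := by
    intro a
    rw [hio, h.pAi, h.hai]
    simp
  have hiow : ∀ k, io (w k) = e k := by
    intro k
    rw [hio, h.pAw, map_zero, zero_add, h.hw]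
    simp [Pi.single_apply]
  have hpr : ∀ x, pr (io x) = lf ab x := by
    intro x
    rw [hio, map_add, p2, zero_add, map_sum]
    unfold lf
    refine Finset.sum_congr rfl fun k _ => ?_
    rw [LinearMap.map_smul_of_tower, p1, smul_eq_C_mul]
  refine ⟨⟨pr, io, hpr, ?_, ?_, ?_, ?_, ?_⟩⟩
  · intro x y
    have h1 : io ⁅x, y⁆ = inc (pA ⁅x, y⁆) := by
      rw [hio, h.hc]
      simp
    rw [h1, h.lie_dec, map_add, map_sub, map_smul, map_smul, map_sum, hio, hio, smul_add, smul_add]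
    have h2 : ∀ (x y : L), lf ab y • ∑ k, ab x k • e k =
        ∑ k, ∑ l, (ab x k * ab y l) • ((X l : Sy F d) • e k) := by
      intro x y
      rw [Finset.smul_sum]
      refine Finset.sum_congr rfl fun k _ => ?_
      rw [lf_smul_eq]
      refine Finset.sum_congr rfl fun l _ => ?_
      rw [smul_comm (X l : Sy F d) (ab x k), smul_smul, mul_comm]
    have h3 : ∑ k, inc (∑ l, (ab x k * ab y l) • pA ⁅w k, w l⁆) =
        lf ab y • ∑ k, ab x k • e k - lf ab x • ∑ k, ab y k • e k := by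
      rw [h2 x y, h2 y x, Finset.sum_comm (f := fun k l => (ab y k * ab x l) •
        ((X l : Sy F d) • e k)), ← Finset.sum_sub_distrib]
      refine Finset.sum_congr rfl fun k _ => ?_
      rw [map_sum, ← Finset.sum_sub_distrib]
      refine Finset.sum_congr rfl fun l _ => ?_
      rw [LinearMap.map_smul_of_tower, ← p5, smul_sub, mul_comm (ab y l)]
    rw [h3]
    abel
  · intro B N _ _ _ _ _ _ κ b hb
    have hlw : ∀ k, aeval κ (lf ab (w k)) = κ k := by
      intro k
      unfold lf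
      rw [h.hw]
      simp [Pi.single_apply]
    have hli : ∀ a, lf ab (i a) = 0 := by
      intro a
      unfold lf
      rw [h.hai]
      simp
    have h1 : ∀ (s : Sy F d) (a : A), (b.comp i) (s • a) = aeval κ s • (b.comp i) a := by
      intro s
      induction s using MvPolynomial.induction_on with
      | C c =>
        intro a
        have h2 : (C c : Sy F d) • a = c • a := by
          rw [← mul_one (C c), ← smul_eq_C_mul, smul_assoc, one_smul]
        rw [h2, map_smul, aeval_C, algebraMap_smul]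
      | add p q hp hq =>
        intro a
        rw [add_smul, map_add, hp, hq, map_add, add_smul]
      | mul_X p k hp =>
        intro a
        rw [mul_smul, hp, map_mul, mul_smul, aeval_X]
        congr 1
        rw [LinearMap.comp_apply, h.hX, hb, hlw, hli, map_zero, zero_smul, sub_zero]
        rfl
    obtain ⟨β, h2, h3, h4⟩ := p7 B N κ (b.comp i) (fun k => b (w k)) h1 (by
      intro k l
      rw [LinearMap.comp_apply, h.ipA, hb, hlw, hlw])
    refine ⟨β, h2, fun x => ?_⟩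
    rw [hio, map_add, h3, map_sum, LinearMap.comp_apply]
    conv_rhs => rw [h.dec x, map_add, map_sum]
    congr 1
    refine Finset.sum_congr rfl fun k _ => ?_
    rw [map_smul, map_smul, h4]
  · rw [Submodule.eq_top_iff']
    intro m
    obtain ⟨a, s, rfl⟩ := p6 m
    refine Submodule.add_mem _ (Submodule.subset_span ⟨i a, hioi a⟩)
      (Submodule.sum_mem _ fun k _ => Submodule.smul_mem _ _ (Submodule.subset_span ⟨w k, hiow k⟩))
  · intro m hm
    obtain ⟨a, rfl⟩ := p4 m hm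
    exact ⟨i a, hioi a⟩
  · intro x hx
    have h1 : lf ab x = 0 := by rw [← hpr, hx, map_zero]
    have h2 : ab x = 0 := by
      funext k
      have h3 := congrArg (eval (Pi.single k (1 : F))) h1
      unfold lf at h3
      simpa [Pi.single_apply] using h3
    have h3 : inc (pA x) = 0 := by
      rw [hio, h2] at hx
      simpa using hx
    have h4 : pA x = 0 := p3 (by rw [h3, map_zero])
    have h5 := h.dec x
    rw [h4, h2] at h5
    have h6 : x = 0 := by
      rw [h5]
      simp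
    rw [h6]
    exact zero_mem _

end main

theorem t_FX : S_X → S_FX := by
  intro hX F _ _ L _ _ d ab hab hmet
  obtain ⟨hsur, hker⟩ := hab
  choose w hw using fun k : Fin d => hsur (Pi.single k 1)
  have hc : ∀ x y, ab ⁅x, y⁆ = 0 := fun x y => (hker _).2 (Submodule.subset_span ⟨x, y, rfl⟩)
  have key1 : ∀ b ∈ Submodule.span F {z : L | ∃ a b : L, ⁅a, b⁆ = z}, ∀ p q : L,
      ⁅⁅p, q⁆, b⁆ = 0 := by
    intro b hb p q
    induction hb using Submodule.span_induction with
    | mem b hb =>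
      obtain ⟨r, s, rfl⟩ := hb
      exact hmet p q r s
    | zero => exact lie_zero _
    | add b c _ _ hb hc => rw [lie_add, hb, hc, add_zero]
    | smul t b _ hb => rw [lie_smul, hb, smul_zero]
  have key2 : ∀ a ∈ Submodule.span F {z : L | ∃ a b : L, ⁅a, b⁆ = z},
      ∀ b ∈ Submodule.span F {z : L | ∃ a b : L, ⁅a, b⁆ = z}, ⁅a, b⁆ = 0 := by
    intro a ha b hb
    induction ha using Submodule.span_induction with
    | mem a ha =>
      obtain ⟨p, q, rfl⟩ := ha
      exact key1 b hb p q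
    | zero => exact zero_lie _
    | add a c _ _ h3 h4 => rw [add_lie, h3, h4, add_zero]
    | smul t a _ h2 => rw [smul_lie, h2, smul_zero]
  have hAA : ∀ a b : L, ab a = 0 → ab b = 0 → ⁅a, b⁆ = 0 :=
    fun a b ha hb => key2 a ((hker a).1 ha) b ((hker b).1 hb)
  let T : Fin d → Module.End F (LinearMap.ker ab) := fun k =>
    { toFun := fun a => ⟨⁅(a : L), w k⁆, hc _ _⟩
      map_add' := fun a b => Subtype.ext (by simp)
      map_smul' := fun c a => Subtype.ext (by simp) }
  have hT : ∀ i j, T i * T j = T j * T i := by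
    intro i j
    refine LinearMap.ext fun a => Subtype.ext ?_
    change ⁅⁅(a : L), w j⁆, w i⁆ = ⁅⁅(a : L), w i⁆, w j⁆
    have h1 := lie_lie (a : L) (w j) (w i)
    have h2 : ⁅(a : L), ⁅w j, w i⁆⁆ = 0 := hAA _ _ a.2 (hc _ _)
    rw [h1, h2, zero_sub, lie_skew]
  obtain ⟨ρ, hρ⟩ := exists_act T hT
  let mA : Module (Sy F d) (LinearMap.ker ab) :=
    Module.compHom (LinearMap.ker ab) (ρ : Sy F d →+* Module.End F (LinearMap.ker ab))
  have hsm : ∀ (s : Sy F d) (a : LinearMap.ker ab), s • a = ρ s a := fun _ _ => rfl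
  have tA : IsScalarTower F (Sy F d) (LinearMap.ker ab) := by
    refine ⟨fun c s a => ?_⟩
    rw [hsm, hsm, map_smul]
    rfl
  let sL : L →ₗ[F] L := ∑ k, ((LinearMap.proj k).comp ab).smulRight (w k)
  have hsL : ∀ x, sL x = ∑ k, ab x k • w k := by
    intro x
    simp [sL]
  let pA : L →ₗ[F] LinearMap.ker ab := LinearMap.codRestrict (LinearMap.ker ab)
    (LinearMap.id - sL) (by
      intro x
      rw [LinearMap.mem_ker, LinearMap.sub_apply, LinearMap.id_apply, hsL, map_sub, map_sum,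
        sub_eq_zero]
      funext l
      simp [hw, Pi.single_apply])
  have hS : Setup ab w (LinearMap.ker ab).subtype pA := by
    refine ⟨hw, Subtype.val_injective, fun a => a.2, fun x => ?_, fun k a => ?_, hc, fun a b => ?_⟩
    · change x - sL x = _
      rw [hsL]
    · rw [hsm, hρ]
      rfl
    · exact hAA _ _ a.2 b.2
  obtain ⟨M, i1, i2, i3, i4, pr, inc, e, p1, p2, p3, p4, p5, p6, p7⟩ :=
    hX F d (LinearMap.ker ab) (fun k l => pA ⁅w k, w l⁆) (fun k l => Setup.skew k l)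
      (fun a b c => hS.jacobi a b c)
  exact ⟨M, i1, i2, i3, i4, mk_fox hS pr inc e p1 p2 p3 p4 p5 p6 p7⟩

end Pool.Agent.U454.EM.FX
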